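import Pool.Agent.H989R3.Kameko.Stmt

/-!
# Degree zero: the stated equivalence fails in rank four

For `d = 4`, `n = 0` the squaring operation `F_2 ⊗_{GL_4} P H_0 → F_2 ⊗_{GL_4} P H_4` is not
injective (and the same holds for every `d ≥ 4`), so that, with all degrees `n ≥ 0` allowed as in
the problem text, injectivity in all degrees is not equivalent to `d ≤ 4`.
-/

set_option autoImplicit false

namespace Pool.Agent.Results.MP_ca28bb_gt.DegreeZeroRankFour

open Pool.Agent.H989R3.Kameko

theorem result :
    (∀ d : ℕ, 4 ≤ d → ¬ Function.Injective (sqCo d 0)) ∧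
    ¬ ∀ d : ℕ, 1 ≤ d → ((∀ n : ℕ, Function.Injective (sqCo d n)) ↔ d ≤ 4) :=
  ⟨fun d hd h => not_injective_zero d hd (sqCo_injective h),
    fun h => not_injective_zero 4 (le_refl 4)
      (sqCo_injective (((h 4 (by norm_num)).2 (le_refl 4)) 0))⟩

end Pool.Agent.Results.MP_ca28bb_gt.DegreeZeroRankFour
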