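import Pool.Agent.H989R3.Kameko.Stmt

/-!
# Kameko's squaring operation on coinvariants is not injective in every rank `d ≥ 5`

For every `d ≥ 5` and every `j ≥ d` the squaring operation
`F_2 ⊗_{GL_d} P H_n → F_2 ⊗_{GL_d} P H_(d+2n)` is not injective in the positive degree
`n = 2^j - 1`. The class of the divided power `a_1^(n)` is a non zero element of the kernel.
-/

set_option autoImplicit false

namespace Pool.Agent.Results.MP_ca28bb_gt.NonInjectiveRankFive

open Pool.Agent.H989R3.Kameko

theorem result :
    ∀ d : ℕ, 5 ≤ d → ∀ j : ℕ, d ≤ j → ¬ Function.Injective (sqCo d (2 ^ j - 1)) :=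
  fun d hd j hj h => not_injective d hd j hj (sqCo_injective h)

end Pool.Agent.Results.MP_ca28bb_gt.NonInjectiveRankFive
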